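import Mathlib

/-!
# The maximum number of ones of strongly `I_k`-forcing matrices

A (0,1)-matrix `A` is strongly `Q`-forcing if every entry `1` of `A` lies in a submatrix equal to `Q`.
We prove the conjectured formula `M(n, I_k) = n^2 - (2k-3)n + k^2 - 2k` for all `n ≥ k ≥ 3` with
`n ≤ k + 3` or `n ≥ k(k-1)/2 + 1`.  For `k = 4` these are all `n ≥ 4`.

Upper bound.  Let `r` be a row with the smallest number `d` of zeros among all rows and columns and let `D`
be its set of zero columns.  For `c ∉ D` the entry `(r, c)` lies in a copy of `I_k`, whose other `k - 1`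
rows have a zero at `c` and at least `k - 2` zeros in `D`.  Let `W` be the set of rows `≠ r` with at least
`k - 2` zeros in `D`, and `u = n - |W|`.  Counting zeros by rows,
`zeros ≥ (k-2)(n-u) + (k-1)(n-d) + d u`, and counting by columns,
`zeros ≥ d(n-d) + (k-2)(n-u) + d`.  One of the two is enough when `n` is large; when `n ≤ k + 3` and
`d ≥ k`, the bound `ones ≤ k + 2(n-k)(n-d)`, read off from one copy of `I_k`, is enough.
The order of rows and columns plays no role in the upper bound.
-/

namespace Pool.Agent.H77.ForcingRange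

/-- `A` is strongly `Q`-forcing: every entry `1` of `A` is contained in a submatrix (rows `f i`, columns
`g j`, in increasing order) that is equal to `Q`.  Entries are Booleans, `true` standing for `1`. -/
def StronglyForcing {k n : ℕ} (Q : Fin k → Fin k → Bool) (A : Fin n → Fin n → Bool) : Prop :=
  ∀ r c, A r c = true → ∃ f g : Fin k → Fin n, StrictMono f ∧ StrictMono g ∧
    (∀ i j, A (f i) (g j) = Q i j) ∧ (∃ i, f i = r) ∧ (∃ j, g j = c)

/-- The identity matrix `I_k`. -/
def idMatrix (k : ℕ) : Fin k → Fin k → Bool := fun i j => decide (i = j)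

/-- The number of entries `1` of `A`. -/
def ones {n : ℕ} (A : Fin n → Fin n → Bool) : ℕ :=
  ((Finset.univ : Finset (Fin n × Fin n)).filter fun p => A p.1 p.2 = true).card

/-! ### The upper bound -/

/-- the order-free form of the hypothesis -/
def Good (k n : ℕ) (A : Fin n → Fin n → Bool) : Prop :=
  ∀ r c, A r c = true → ∃ f g : Fin k → Fin n, Function.Injective f ∧ Function.Injective g ∧
    (∀ i j, A (f i) (g j) = decide (i = j)) ∧ ∃ i, f i = r ∧ g i = c

lemma good_of_forcing {k n : ℕ} {A : Fin n → Fin n → Bool} (h : StronglyForcing (idMatrix k) A) :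
    Good k n A := by
  intro r c hrc
  obtain ⟨f, g, hf, hg, hQ, ⟨i, hi⟩, ⟨j, hj⟩⟩ := h r c hrc
  refine ⟨f, g, hf.injective, hg.injective, hQ, i, hi, ?_⟩
  have h1 := hQ i j
  rw [hi, hj, hrc] at h1
  have h2 : i = j := by simpa [idMatrix] using h1.symm
  rw [h2, hj]

lemma Good.transpose {k n : ℕ} {A : Fin n → Fin n → Bool} (h : Good k n A) :
    Good k n (fun r c => A c r) := by
  intro r c hrc
  obtain ⟨f, g, hf, hg, hQ, i, hi, hj⟩ := h c r hrc
  refine ⟨g, f, hg, hf, ?_, i, hj, hi⟩
  intro a b
  have h1 := hQ b a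
  simp only [h1]
  exact decide_eq_decide.2 eq_comm

/-- zeros in row `r` -/
def zr {n : ℕ} (A : Fin n → Fin n → Bool) (r : Fin n) : Finset (Fin n) :=
  Finset.univ.filter fun c => A r c = false

/-- zeros in column `c` -/
def zc {n : ℕ} (A : Fin n → Fin n → Bool) (c : Fin n) : Finset (Fin n) :=
  Finset.univ.filter fun r => A r c = false

/-- the number of zeros -/
def zeros {n : ℕ} (A : Fin n → Fin n → Bool) : ℕ := ∑ r, (zr A r).card

lemma mem_zr {n : ℕ} {A : Fin n → Fin n → Bool} {r c : Fin n} : c ∈ zr A r ↔ A r c = false := by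
  simp [zr]

lemma mem_zc {n : ℕ} {A : Fin n → Fin n → Bool} {r c : Fin n} : r ∈ zc A c ↔ A r c = false := by
  simp [zc]

/-- double counting of zeros in `W × S` -/
lemma double {n : ℕ} (A : Fin n → Fin n → Bool) (W S : Finset (Fin n)) :
    ∑ w ∈ W, (zr A w ∩ S).card = ∑ c ∈ S, (zc A c ∩ W).card := by
  have h1 : ∀ w, (zr A w ∩ S).card = ∑ c ∈ S, if A w c = false then 1 else 0 := by
    intro w
    rw [Finset.sum_ite, Finset.sum_const_zero, add_zero, Finset.sum_const, smul_eq_mul, mul_one]
    congr 1
    ext c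
    simp [zr, and_comm]
  have h2 : ∀ c, (zc A c ∩ W).card = ∑ w ∈ W, if A w c = false then 1 else 0 := by
    intro c
    rw [Finset.sum_ite, Finset.sum_const_zero, add_zero, Finset.sum_const, smul_eq_mul, mul_one]
    congr 1
    ext w
    simp [zc, and_comm]
  simp_rw [h1, h2]
  exact Finset.sum_comm

lemma zeros_eq_cols {n : ℕ} (A : Fin n → Fin n → Bool) : zeros A = ∑ c, (zc A c).card := by
  have h := double A Finset.univ Finset.univ
  simpa [zeros] using h

lemma zeros_transpose {n : ℕ} (A : Fin n → Fin n → Bool) : zeros (fun r c => A c r) = zeros A := by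
  rw [zeros_eq_cols A]
  rfl

lemma ones_add_zeros {n : ℕ} (A : Fin n → Fin n → Bool) : ones A + zeros A = n * n := by
  have h1 : zeros A = ((Finset.univ : Finset (Fin n × Fin n)).filter
      fun p => ¬ A p.1 p.2 = true).card := by
    rw [zeros, Finset.card_filter, ← Finset.univ_product_univ, Finset.sum_product]
    refine Finset.sum_congr rfl fun r _ => ?_
    rw [zr, Finset.card_filter]
    refine Finset.sum_congr rfl fun c _ => ?_
    simp
  rw [h1, ones, Finset.card_filter_add_card_filter_not]
  simp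

/-- the two counting bounds for a row `r` with the smallest number `d` of zeros -/
lemma key {k n : ℕ} {A : Fin n → Fin n → Bool} (h : Good k n A) (r : Fin n) (d : ℕ)
    (hd : (zr A r).card = d) (hdn : d < n) (hrow : ∀ w, d ≤ (zr A w).card)
    (hcol : ∀ c, d ≤ (zc A c).card) :
    k - 1 ≤ d ∧ ∃ u, 1 ≤ u ∧ u ≤ n ∧
      (k - 2) * (n - u) + (k - 1) * (n - d) + d * u ≤ zeros A ∧
      d * (n - d) + (k - 2) * (n - u) + d ≤ zeros A := by
  classical
  set D := zr A r with hD
  set W : Finset (Fin n) := Finset.univ.filter fun w => w ≠ r ∧ k - 2 ≤ (zr A w ∩ D).card with hW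
  have hrW : r ∉ W := by simp [hW]
  have hWn : W.card < n := by
    have : W ⊂ Finset.univ := Finset.ssubset_univ_iff.2 fun h => hrW (h ▸ Finset.mem_univ r)
    simpa using Finset.card_lt_card this
  -- the crown rows
  have hcrown : ∀ c, c ∉ D → k - 1 ≤ (zc A c ∩ W).card ∧ k - 1 ≤ D.card := by
    intro c hc
    have hrc : A r c = true := by
      by_contra hne
      exact hc (mem_zr.2 (by simpa using hne))
    obtain ⟨f, g, hf, hg, hQ, i, hi, hgi⟩ := h r c hrc
    constructor
    · have hsub : (Finset.univ.erase i).image f ⊆ zc A c ∩ W := by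
        intro w hw
        obtain ⟨a, ha, rfl⟩ := Finset.mem_image.1 hw
        have hai : a ≠ i := (Finset.mem_erase.1 ha).1
        have h0 : A (f a) c = false := by rw [← hgi, hQ a i]; simp [hai]
        refine Finset.mem_inter.2 ⟨mem_zc.2 h0, ?_⟩
        rw [hW, Finset.mem_filter]
        refine ⟨Finset.mem_univ _, ?_, ?_⟩
        · intro hcontra
          rw [hcontra, hrc] at h0
          exact Bool.noConfusion h0
        · have hsub2 : ((Finset.univ.erase i).erase a).image g ⊆ zr A (f a) ∩ D := by
            intro x hx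
            obtain ⟨b, hb, rfl⟩ := Finset.mem_image.1 hx
            have hb1 : b ≠ a := (Finset.mem_erase.1 hb).1
            have hb2 : b ≠ i := (Finset.mem_erase.1 (Finset.mem_erase.1 hb).2).1
            refine Finset.mem_inter.2 ⟨mem_zr.2 ?_, mem_zr.2 ?_⟩
            · rw [hQ a b]; simp [hb1.symm]
            · rw [← hi, hQ i b]; simp [hb2.symm]
          have hcard := Finset.card_le_card hsub2
          rw [Finset.card_image_of_injective _ hg, Finset.card_erase_of_mem
            (Finset.mem_erase.2 ⟨hai, Finset.mem_univ _⟩),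
            Finset.card_erase_of_mem (Finset.mem_univ _), Finset.card_univ, Fintype.card_fin] at hcard
          omega
      have hcard := Finset.card_le_card hsub
      rw [Finset.card_image_of_injective _ hf, Finset.card_erase_of_mem (Finset.mem_univ _),
        Finset.card_univ, Fintype.card_fin] at hcard
      exact hcard
    · have hsub : (Finset.univ.erase i).image g ⊆ D := by
        intro x hx
        obtain ⟨b, hb, rfl⟩ := Finset.mem_image.1 hx
        have hb1 : b ≠ i := (Finset.mem_erase.1 hb).1
        rw [hD, mem_zr, ← hi, hQ i b]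
        simp [hb1.symm]
      have hcard := Finset.card_le_card hsub
      rw [Finset.card_image_of_injective _ hg, Finset.card_erase_of_mem (Finset.mem_univ _),
        Finset.card_univ, Fintype.card_fin] at hcard
      exact hcard
  have hDc : (Finset.univ \ D).card = n - d := by
    rw [Finset.card_sdiff_of_subset (Finset.subset_univ _), Finset.card_univ, Fintype.card_fin, hd]
  have hex : ∃ c, c ∉ D := by
    by_contra hall
    push Not at hall
    have : D = Finset.univ := Finset.eq_univ_of_forall hall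
    rw [this, Finset.card_univ, Fintype.card_fin] at hd
    omega
  obtain ⟨c0, hc0⟩ := hex
  refine ⟨hd ▸ (hcrown c0 hc0).2, n - W.card, by omega, by omega, ?_, ?_⟩
  · -- bound A
    have hsplit : ∀ w, (zr A w).card = (zr A w ∩ D).card + (zr A w ∩ (Finset.univ \ D)).card := by
      intro w
      rw [← Finset.card_inter_add_card_sdiff (zr A w) D]
      congr 2
      ext x; simp
    have h1 : zeros A = ∑ w ∈ W, (zr A w).card + ∑ w ∈ Finset.univ \ W, (zr A w).card := by
      rw [zeros, add_comm, Finset.sum_sdiff (Finset.subset_univ W)]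
    have h2 : ∑ w ∈ W, (zr A w).card
        = ∑ w ∈ W, (zr A w ∩ D).card + ∑ c ∈ Finset.univ \ D, (zc A c ∩ W).card := by
      rw [← double A W (Finset.univ \ D), ← Finset.sum_add_distrib]
      exact Finset.sum_congr rfl fun w _ => hsplit w
    have h3 : W.card * (k - 2) ≤ ∑ w ∈ W, (zr A w ∩ D).card := by
      rw [← smul_eq_mul]
      exact Finset.card_nsmul_le_sum _ _ _ fun w hw => (Finset.mem_filter.1 hw).2.2
    have h4 : (Finset.univ \ D).card * (k - 1) ≤ ∑ c ∈ Finset.univ \ D, (zc A c ∩ W).card := by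
      rw [← smul_eq_mul]
      exact Finset.card_nsmul_le_sum _ _ _ fun c hc => (hcrown c (Finset.mem_sdiff.1 hc).2).1
    have h5 : (Finset.univ \ W).card * d ≤ ∑ w ∈ Finset.univ \ W, (zr A w).card := by
      rw [← smul_eq_mul]
      exact Finset.card_nsmul_le_sum _ _ _ fun w _ => hrow w
    have h6 : (Finset.univ \ W).card = n - W.card := by
      rw [Finset.card_sdiff_of_subset (Finset.subset_univ _), Finset.card_univ, Fintype.card_fin]
    rw [hDc] at h4
    rw [h6] at h5
    have h7 : n - (n - W.card) = W.card := by omega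
    rw [h7, h1, h2]
    nlinarith
  · -- bound B
    have h1 : zeros A = ∑ c ∈ Finset.univ \ D, (zc A c).card + ∑ c ∈ D, (zc A c).card := by
      rw [zeros_eq_cols, Finset.sum_sdiff (Finset.subset_univ D)]
    have h2 : ∑ c ∈ D, (zc A c).card = ∑ w, (zr A w ∩ D).card := by
      rw [double A Finset.univ D]
      simp
    have h3 : ∑ w ∈ insert r W, (zr A w ∩ D).card ≤ ∑ w, (zr A w ∩ D).card :=
      Finset.sum_le_sum_of_subset (Finset.subset_univ _)
    rw [Finset.sum_insert hrW] at h3
    have h3' : (zr A r ∩ D).card = d := by rw [← hD, Finset.inter_self, hd]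
    have h4 : W.card * (k - 2) ≤ ∑ w ∈ W, (zr A w ∩ D).card := by
      rw [← smul_eq_mul]
      exact Finset.card_nsmul_le_sum _ _ _ fun w hw => (Finset.mem_filter.1 hw).2.2
    have h5 : (Finset.univ \ D).card * d ≤ ∑ c ∈ Finset.univ \ D, (zc A c).card := by
      rw [← smul_eq_mul]
      exact Finset.card_nsmul_le_sum _ _ _ fun c _ => hcol c
    rw [hDc] at h5
    have h7 : n - (n - W.card) = W.card := by omega
    rw [h7, h1, h2]
    nlinarith

/-- the bound from a single copy of `I_k` -/
lemma single {k n : ℕ} {A : Fin n → Fin n → Bool} (h : Good k n A) (d : ℕ)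
    (hdn : d ≤ n) (hrow : ∀ w, d ≤ (zr A w).card) (hcol : ∀ c, d ≤ (zc A c).card)
    (hone : ∃ r c, A r c = true) :
    ones A ≤ k + 2 * (n - k) * (n - d) := by
  classical
  obtain ⟨r, c, hrc⟩ := hone
  obtain ⟨f, g, hf, hg, hQ, -⟩ := h r c hrc
  set R := Finset.univ.image f with hR
  set C := Finset.univ.image g with hC
  have hRc : (Finset.univ \ R).card = n - k := by
    rw [Finset.card_sdiff_of_subset (Finset.subset_univ _), Finset.card_univ, Fintype.card_fin, hR,
      Finset.card_image_of_injective _ hf, Finset.card_univ, Fintype.card_fin]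
  have hCc : (Finset.univ \ C).card = n - k := by
    rw [Finset.card_sdiff_of_subset (Finset.subset_univ _), Finset.card_univ, Fintype.card_fin, hC,
      Finset.card_image_of_injective _ hg, Finset.card_univ, Fintype.card_fin]
  have hsub : ((Finset.univ : Finset (Fin n × Fin n)).filter fun p => A p.1 p.2 = true) ⊆
      (Finset.univ.image fun i => (f i, g i)) ∪
      ((Finset.univ \ R).biUnion fun x => (Finset.univ \ zr A x).image fun y => (x, y)) ∪
      ((Finset.univ \ C).biUnion fun y => (Finset.univ \ zc A y).image fun x => (x, y)) := by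
    rintro ⟨x, y⟩ hp
    have hxy : A x y = true := by simpa using hp
    simp only [Finset.mem_union]
    by_cases hx : x ∈ R
    · by_cases hy : y ∈ C
      · left; left
        obtain ⟨i, -, rfl⟩ := Finset.mem_image.1 hx
        obtain ⟨j, -, rfl⟩ := Finset.mem_image.1 hy
        rw [hQ i j] at hxy
        have : i = j := by simpa using hxy
        subst this
        exact Finset.mem_image.2 ⟨i, Finset.mem_univ _, rfl⟩
      · right
        refine Finset.mem_biUnion.2 ⟨y, Finset.mem_sdiff.2 ⟨Finset.mem_univ _, hy⟩, ?_⟩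
        refine Finset.mem_image.2 ⟨x, Finset.mem_sdiff.2 ⟨Finset.mem_univ _, ?_⟩, rfl⟩
        rw [mem_zc, hxy]; simp
    · left; right
      refine Finset.mem_biUnion.2 ⟨x, Finset.mem_sdiff.2 ⟨Finset.mem_univ _, hx⟩, ?_⟩
      refine Finset.mem_image.2 ⟨y, Finset.mem_sdiff.2 ⟨Finset.mem_univ _, ?_⟩, rfl⟩
      rw [mem_zr, hxy]; simp
  have hc1 : ((Finset.univ.image fun i => (f i, g i)) : Finset (Fin n × Fin n)).card ≤ k := by
    refine Finset.card_image_le.trans ?_
    simp
  have hc2 : ((Finset.univ \ R).biUnion fun x => (Finset.univ \ zr A x).image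
      fun y => (x, y)).card ≤ (n - k) * (n - d) := by
    rw [← hRc]
    refine Finset.card_biUnion_le_card_mul _ _ _ fun x _ => Finset.card_image_le.trans ?_
    rw [Finset.card_sdiff_of_subset (Finset.subset_univ _), Finset.card_univ, Fintype.card_fin]
    have := hrow x
    omega
  have hc3 : ((Finset.univ \ C).biUnion fun y => (Finset.univ \ zc A y).image
      fun x => (x, y)).card ≤ (n - k) * (n - d) := by
    rw [← hCc]
    refine Finset.card_biUnion_le_card_mul _ _ _ fun x _ => Finset.card_image_le.trans ?_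
    rw [Finset.card_sdiff_of_subset (Finset.subset_univ _), Finset.card_univ, Fintype.card_fin]
    have := hcol x
    omega
  have htot := (Finset.card_le_card hsub).trans
    ((Finset.card_union_le _ _).trans (Nat.add_le_add_right (Finset.card_union_le _ _) _))
  rw [ones]
  nlinarith

/-- the arithmetic behind the choice between the two bounds -/
lemma arith (m j u n : ℤ) (hj : 1 ≤ j) (hjm : j ≤ m - 1) (hu : (j + 1) * u ≤ j * (m + 1))
    (hn : (m + 2) * (m + 1) + 2 ≤ 2 * n) : m * (u - 1) ≤ j * (n - 2 * m - 1 - j) := by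
  have hm : 2 ≤ m := by linarith
  have h2n : m ^ 2 - m + 2 - 2 * j ≤ 2 * (n - 2 * m - 1 - j) := by nlinarith
  suffices h : 2 * (m * (u - 1)) ≤ j * (m ^ 2 - m + 2 - 2 * j) by nlinarith
  rcases eq_or_lt_of_le hj with h1 | h1
  · subst h1
    nlinarith
  rcases eq_or_lt_of_le (show (2 : ℤ) ≤ j by linarith) with h2 | h2
  · subst h2
    rcases eq_or_lt_of_le (show (3 : ℤ) ≤ m by linarith) with h3 | h3
    · subst h3
      have : u ≤ 2 := by omega
      nlinarith
    · have h4 : (4 : ℤ) ≤ m := by linarith
      have h5 : 3 * (2 * (m * (u - 1))) ≤ 2 * (m * (2 * m - 1)) := by nlinarith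
      nlinarith
  · have h3 : (3 : ℤ) ≤ j := by linarith
    have h4 : (4 : ℤ) ≤ m := by linarith
    have h5 : (j + 1) * (2 * (m * (u - 1))) ≤ 2 * (m * (j * m)) := by nlinarith
    have h6 : 2 * m ^ 2 ≤ (j + 1) * (m ^ 2 - m + 2 - 2 * j) := by
      have h7 : 0 ≤ (j - 3) * (m - 1 - j) := mul_nonneg (by linarith) (by linarith)
      have h8 : 0 ≤ (m - 4) * (j * (m + 1) - (m - 1)) := by
        apply mul_nonneg (by linarith)
        nlinarith
      nlinarith
    have h9 : (j + 1) * (2 * (m * (u - 1))) ≤ (j + 1) * (j * (m ^ 2 - m + 2 - 2 * j)) := by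
      nlinarith
    exact le_of_mul_le_mul_left h9 (by linarith)

/-- the upper bound, when the minimum number of zeros is attained by a row -/
lemma upper_row {k n : ℕ} (hk : 3 ≤ k) (hkn : k ≤ n) {A : Fin n → Fin n → Bool} (h : Good k n A)
    (hr : n ≤ k + 3 ∨ k * (k - 1) + 2 ≤ 2 * n) (r : Fin n) (d : ℕ)
    (hd : (zr A r).card = d) (hrow : ∀ w, d ≤ (zr A w).card) (hcol : ∀ c, d ≤ (zc A c).card) :
    ones A ≤ k + (n - k) ^ 2 + 3 * (n - k) := by
  have hoz := ones_add_zeros A
  have hdn : d ≤ n := by
    rw [← hd]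
    simpa using Finset.card_le_univ (zr A r)
  have hz : n * d ≤ zeros A := by
    rw [zeros]
    have := Finset.card_nsmul_le_sum Finset.univ (fun w => (zr A w).card) d fun w _ => hrow w
    simpa using this
  obtain ⟨s, rfl⟩ := Nat.exists_eq_add_of_le hkn
  have hsub : k + s - k = s := by omega
  rw [hsub]
  obtain ⟨m, rfl⟩ := Nat.exists_eq_add_of_le (show 2 ≤ k by omega)
  rcases le_or_gt (2 * (2 + m) - 3) d with hd1 | hd1
  · -- many zeros in every row
    have h1 : (2 + m + s) * (2 * m + 1) ≤ zeros A :=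
      le_trans (Nat.mul_le_mul_left _ (by omega)) hz
    nlinarith
  rcases Nat.lt_or_ge d (2 + m + s) with hdn' | hdn'
  swap
  · have : (2 + m + s) * (2 + m + s) ≤ zeros A := le_trans (Nat.mul_le_mul_left _ hdn') hz
    have : ones A = 0 := by omega
    omega
  obtain ⟨hkd, u, hu1, hun, hA, hB⟩ := key h r d hd hdn' hrow hcol
  obtain ⟨j, hj⟩ := Nat.exists_eq_add_of_le hkd
  have e1 : 2 + m - 2 = m := by omega
  have e2 : 2 + m - 1 = m + 1 := by omega
  rw [e1] at hA hB
  rw [e2] at hA hj
  obtain ⟨N, hN⟩ := Nat.exists_eq_add_of_le hun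
  obtain ⟨M, hM⟩ := Nat.exists_eq_add_of_le hdn
  have e3 : 2 + m + s - u = N := by omega
  have e4 : 2 + m + s - d = M := by omega
  rw [e3, e4] at hA hB
  rcases Nat.lt_or_ge (j * (m + 1)) ((j + 1) * u) with hcase | hcase
  · -- bound A
    zify at hA hoz hN hM hj hcase ⊢
    have hNz : (N : ℤ) = 2 + m + s - u := by linarith
    have hMz : (M : ℤ) = 2 + m + s - d := by linarith
    rw [hNz, hMz, hj] at hA
    nlinarith
  · have hj1 : 1 ≤ j := by
      by_contra hcon
      have : j = 0 := by omega
      subst this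
      omega
    rcases hr with hr | hr
    · -- the bound from one copy
      have hone : ∃ r c, A r c = true := by
        by_contra hcon
        push Not at hcon
        have : (zr A r) = Finset.univ := by
          ext c
          simp [zr, hcon r c]
        rw [this, Finset.card_univ, Fintype.card_fin] at hd
        omega
      have h1 := single h d hdn hrow hcol hone
      rw [hsub, e4] at h1
      have h2 : M ≤ s := by omega
      have h3 : s ≤ 3 := by omega
      have h4 : 2 * s * M ≤ 2 * s * s := Nat.mul_le_mul_left _ h2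
      have h5 : s * s ≤ 3 * s := Nat.mul_le_mul_right s h3
      have h6 : s ^ 2 = s * s := sq s
      have h7 : 2 * s * s = s * s + s * s := by ring
      omega
    · -- bound B
      have hr' : (m + 2) * (m + 1) + 2 ≤ 2 * (2 + m + s) := by
        have : (2 + m) * (2 + m - 1) = (m + 2) * (m + 1) := by rw [e2]; ring
        omega
      have ha := arith m j u (2 + m + s) (by exact_mod_cast hj1) (by
        have : j + 1 ≤ m := by omega
        have : (j : ℤ) + 1 ≤ m := by exact_mod_cast this
        linarith) (by exact_mod_cast hcase) (by exact_mod_cast hr')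
      zify at hB hoz hN hM hj ⊢
      have hNz : (N : ℤ) = 2 + m + s - u := by linarith
      have hMz : (M : ℤ) = 2 + m + s - d := by linarith
      rw [hNz, hMz, hj] at hB
      linarith

/-- the upper bound -/
lemma upper {k n : ℕ} (hk : 3 ≤ k) (hkn : k ≤ n) {A : Fin n → Fin n → Bool} (h : Good k n A)
    (hr : n ≤ k + 3 ∨ k * (k - 1) + 2 ≤ 2 * n) :
    ones A ≤ k + (n - k) ^ 2 + 3 * (n - k) := by
  have hne : (Finset.univ : Finset (Fin n)).Nonempty := ⟨⟨0, by omega⟩, Finset.mem_univ _⟩
  obtain ⟨r, -, hr1⟩ := Finset.exists_min_image Finset.univ (fun w => (zr A w).card) hne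
  obtain ⟨c, -, hc1⟩ := Finset.exists_min_image Finset.univ (fun w => (zc A w).card) hne
  rcases le_total (zr A r).card (zc A c).card with hle | hle
  · exact upper_row hk hkn h hr r _ rfl (fun w => hr1 w (Finset.mem_univ _))
      fun w => hle.trans (hc1 w (Finset.mem_univ _))
  · have h1 := upper_row hk hkn h.transpose hr c (zc A c).card rfl
      (fun w => hc1 w (Finset.mem_univ _)) fun w => hle.trans (hr1 w (Finset.mem_univ _))
    have h2 : ones (fun r c => A c r) = ones A := by
      have e1 := ones_add_zeros A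
      have e2 := ones_add_zeros (fun r c => A c r)
      rw [zeros_transpose] at e2
      omega
    rwa [h2] at h1

/-! ### The lower bound (known): the matrix `I_{k-2} ⊕ (J - H)` -/

/-- the matrix `I_{k-2} ⊕ (J_{n-k+2} - H_{n-k+2})` -/
def S (k n : ℕ) : Fin n → Fin n → Bool := fun r c =>
  if r.1 < k - 2 ∨ c.1 < k - 2 then decide (r = c) else decide (r.1 + c.1 ≠ n + k - 3)

/-- embedding: the first `k - 2` indices and two further ones -/
def emb (k n a b : ℕ) (ha : a < n) (hb : b < n) (hkn : k ≤ n) (t : Fin k) : Fin n :=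
  if t.1 < k - 2 then ⟨t.1, by omega⟩ else if t.1 = k - 2 then ⟨a, ha⟩ else ⟨b, hb⟩

lemma emb_val (k n a b : ℕ) (ha : a < n) (hb : b < n) (hkn : k ≤ n) (t : Fin k) :
    (emb k n a b ha hb hkn t).1 = if t.1 < k - 2 then t.1 else if t.1 = k - 2 then a else b := by
  unfold emb
  split_ifs <;> rfl

lemma emb_strictMono {k n a b : ℕ} (ha : a < n) (hb : b < n) (hkn : k ≤ n) (h1 : k - 2 ≤ a)
    (h2 : a < b) : StrictMono (emb k n a b ha hb hkn) := by
  intro s t hst
  rw [Fin.lt_def, emb_val, emb_val]
  have hs := s.2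
  have ht := t.2
  have hst' : s.1 < t.1 := hst
  split_ifs <;> omega

lemma S_sub {k n a b a' b' : ℕ} (hk : 2 ≤ k) (hkn : k ≤ n) (ha : a < n) (hb : b < n)
    (ha' : a' < n) (hb' : b' < n) (h1 : k - 2 ≤ a) (h2 : a < b) (h3 : k - 2 ≤ a') (h4 : a' < b')
    (h5 : a + b' = n + k - 3) (h6 : b + a' = n + k - 3) (i j : Fin k) :
    S k n (emb k n a b ha hb hkn i) (emb k n a' b' ha' hb' hkn j) = idMatrix k i j := by
  have hi := i.2
  have hj := j.2
  have e1 : (emb k n a b ha hb hkn i = emb k n a' b' ha' hb' hkn j) ↔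
      (if i.1 < k - 2 then i.1 else if i.1 = k - 2 then a else b)
      = (if j.1 < k - 2 then j.1 else if j.1 = k - 2 then a' else b') := by
    rw [Fin.ext_iff, emb_val, emb_val]
  have e2 : (i = j) ↔ i.1 = j.1 := Fin.ext_iff
  unfold S idMatrix
  rw [emb_val, emb_val]
  by_cases hi2 : i.1 < k - 2
  · rw [if_pos (Or.inl (by rw [if_pos hi2]; exact hi2))]
    rw [decide_eq_decide, e1, e2]
    split_ifs <;> omega
  · by_cases hj2 : j.1 < k - 2
    · rw [if_pos (Or.inr (by rw [if_pos hj2]; exact hj2))]
      rw [decide_eq_decide, e1, e2]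
      split_ifs <;> omega
    · rw [if_neg]
      · rw [decide_eq_decide, e2]
        split_ifs <;> omega
      · rw [not_or]
        constructor
        · split_ifs <;> omega
        · split_ifs <;> omega

lemma S_forcing {k n : ℕ} (hk : 2 ≤ k) (hkn : k ≤ n) : StronglyForcing (idMatrix k) (S k n) := by
  intro r c hrc
  have hr := r.2
  have hc := c.2
  unfold S at hrc
  by_cases hcase : r.1 < k - 2 ∨ c.1 < k - 2
  · rw [if_pos hcase] at hrc
    have hrc' : r = c := by simpa using hrc
    subst hrc'
    have hrk : r.1 < k - 2 := by tauto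
    refine ⟨emb k n (k - 2) (k - 1) (by omega) (by omega) hkn,
      emb k n (n - 2) (n - 1) (by omega) (by omega) hkn,
      emb_strictMono _ _ _ (by omega) (by omega), emb_strictMono _ _ _ (by omega) (by omega),
      S_sub hk hkn _ _ _ _ (by omega) (by omega) (by omega) (by omega) (by omega) (by omega),
      ⟨⟨r.1, by omega⟩, ?_⟩, ⟨⟨r.1, by omega⟩, ?_⟩⟩
    · rw [Fin.ext_iff, emb_val, if_pos hrk]
    · rw [Fin.ext_iff, emb_val, if_pos hrk]
  · rw [if_neg hcase] at hrc
    have hne : r.1 + c.1 ≠ n + k - 3 := by simpa using hrc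
    rw [not_or] at hcase
    rcases Nat.lt_or_gt_of_ne hne with hlt | hgt
    · -- `(r, c)` is the upper left entry
      refine ⟨emb k n r.1 (n + k - 3 - c.1) (by omega) (by omega) hkn,
        emb k n c.1 (n + k - 3 - r.1) (by omega) (by omega) hkn,
        emb_strictMono _ _ _ (by omega) (by omega), emb_strictMono _ _ _ (by omega) (by omega),
        S_sub hk hkn _ _ _ _ (by omega) (by omega) (by omega) (by omega) (by omega) (by omega),
        ⟨⟨k - 2, by omega⟩, ?_⟩, ⟨⟨k - 2, by omega⟩, ?_⟩⟩
      · rw [Fin.ext_iff, emb_val]; simp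
      · rw [Fin.ext_iff, emb_val]; simp
    · refine ⟨emb k n (n + k - 3 - c.1) r.1 (by omega) (by omega) hkn,
        emb k n (n + k - 3 - r.1) c.1 (by omega) (by omega) hkn,
        emb_strictMono _ _ _ (by omega) (by omega), emb_strictMono _ _ _ (by omega) (by omega),
        S_sub hk hkn _ _ _ _ (by omega) (by omega) (by omega) (by omega) (by omega) (by omega),
        ⟨⟨k - 1, by omega⟩, ?_⟩, ⟨⟨k - 1, by omega⟩, ?_⟩⟩
      · rw [Fin.ext_iff, emb_val]
        have h1 : ¬ (k - 1 < k - 2) := by omega
        have h2 : ¬ (k - 1 = k - 2) := by omega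
        simp [h1, h2]
      · rw [Fin.ext_iff, emb_val]
        have h1 : ¬ (k - 1 < k - 2) := by omega
        have h2 : ¬ (k - 1 = k - 2) := by omega
        simp [h1, h2]

lemma S_zeros {k n : ℕ} (hk : 2 ≤ k) (hkn : k ≤ n) :
    zeros (S k n) = (k - 2) * (n - 1) + (n - (k - 2)) * (k - 2 + 1) := by
  classical
  have h1 : ∀ r : Fin n, r.1 < k - 2 → (zr (S k n) r).card = n - 1 := by
    intro r hr
    have : zr (S k n) r = Finset.univ.erase r := by
      ext c
      rw [mem_zr, Finset.mem_erase]
      unfold S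
      rw [if_pos (Or.inl hr)]
      simp [eq_comm]
    rw [this, Finset.card_erase_of_mem (Finset.mem_univ _)]
    simp
  have h2 : ∀ r : Fin n, ¬ r.1 < k - 2 → (zr (S k n) r).card = k - 2 + 1 := by
    intro r hr
    have hrn := r.2
    have : zr (S k n) r = insert (⟨n + k - 3 - r.1, by omega⟩ : Fin n)
        (Finset.univ.filter fun c : Fin n => c.1 < k - 2) := by
      ext c
      rw [mem_zr, Finset.mem_insert, Finset.mem_filter]
      unfold S
      by_cases hc : c.1 < k - 2
      · rw [if_pos (Or.inr hc)]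
        have : r ≠ c := by
          intro h
          rw [h] at hr
          exact hr hc
        simp [hc, this]
      · rw [if_neg (by tauto)]
        simp only [hc, and_false, or_false, Fin.ext_iff]
        have hcn := c.2
        rw [decide_eq_false_iff_not]
        omega
    rw [this, Finset.card_insert_of_notMem]
    · congr 1
      have h3 : (Finset.univ.filter fun c : Fin n => c.1 < k - 2).card = k - 2 := by
        rw [Fin.card_filter_val_lt]
        omega
      exact h3
    · rw [Finset.mem_filter]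
      simp only [not_and]
      intro _
      omega
  have h3 : zeros (S k n) = ∑ r : Fin n, if r.1 < k - 2 then n - 1 else k - 2 + 1 := by
    rw [zeros]
    refine Finset.sum_congr rfl fun r _ => ?_
    split_ifs with hr
    · exact h1 r hr
    · exact h2 r hr
  rw [h3, Finset.sum_ite, Finset.sum_const, Finset.sum_const, smul_eq_mul, smul_eq_mul]
  have h4 : (Finset.univ.filter fun c : Fin n => c.1 < k - 2).card = k - 2 := by
    rw [Fin.card_filter_val_lt]
    omega
  have h5 : (Finset.univ.filter fun c : Fin n => ¬ c.1 < k - 2).card = n - (k - 2) := by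
    have := Finset.card_filter_add_card_filter_not (s := (Finset.univ : Finset (Fin n)))
      (fun c : Fin n => c.1 < k - 2)
    rw [h4, Finset.card_univ, Fintype.card_fin] at this
    omega
  rw [h4, h5]

lemma S_ones {k n : ℕ} (hk : 2 ≤ k) (hkn : k ≤ n) :
    ones (S k n) = k + (n - k) ^ 2 + 3 * (n - k) := by
  have h1 := ones_add_zeros (S k n)
  rw [S_zeros hk hkn] at h1
  obtain ⟨s, rfl⟩ := Nat.exists_eq_add_of_le hkn
  obtain ⟨m, rfl⟩ := Nat.exists_eq_add_of_le hk
  have e1 : 2 + m + s - (2 + m) = s := by omega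
  have e2 : 2 + m - 2 = m := by omega
  have e3 : 2 + m + s - 1 = 1 + m + s := by omega
  have e4 : 2 + m + s - m = 2 + s := by omega
  rw [e2, e3, e4] at h1
  rw [e1]
  nlinarith

/-- **Theorem.**  Let `n ≥ k ≥ 3` with `n ≤ k + 3` or `n ≥ k(k-1)/2 + 1` (for `k = 4`: all `n ≥ 4`).  Then
the largest number of ones of an `n × n` strongly `I_k`-forcing (0,1)-matrix is
`n^2 - (2k-3) n + k^2 - 2k`. -/
theorem result (k n : ℕ) (hk : 3 ≤ k) (hkn : k ≤ n)
    (h : n ≤ k + 3 ∨ k * (k - 1) + 2 ≤ 2 * n) :
    ∃ M : ℕ, IsGreatest {m : ℕ | ∃ A : Fin n → Fin n → Bool,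
        StronglyForcing (idMatrix k) A ∧ ones A = m} M ∧
      (M : ℤ) = (n : ℤ) ^ 2 - (2 * (k : ℤ) - 3) * n + (k : ℤ) ^ 2 - 2 * k := by
  refine ⟨k + (n - k) ^ 2 + 3 * (n - k), ⟨⟨S k n, S_forcing (by omega) hkn,
    S_ones (by omega) hkn⟩, ?_⟩, ?_⟩
  · rintro m ⟨A, hA, rfl⟩
    exact upper hk hkn (good_of_forcing hA) h
  · obtain ⟨s, rfl⟩ := Nat.exists_eq_add_of_le hkn
    have e1 : k + s - k = s := by omega
    rw [e1]
    push_cast
    ring

end Pool.Agent.H77.ForcingRange
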